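import Mathlib

set_option autoImplicit false

open Polynomial

namespace Pool.Agent.N371.PY

/-- the quintic polynomial modulo two -/
theorem irr0 : Irreducible (X ^ 5 + X ^ 3 + X ^ 2 + X + 1 : (ZMod 2)[X]) := by
  set p : (ZMod 2)[X] := X ^ 5 + X ^ 3 + X ^ 2 + X + 1 with hp
  have hd : p.natDegree = 5 := by
    rw [hp]; compute_degree!
  have hm : p.Monic := by
    rw [hp]; monicity!
  have hroot : ∀ a : ZMod 2, eval a p ≠ 0 := by
    intro a
    rw [hp]
    simp only [eval_add, eval_pow, eval_X, eval_one]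
    revert a
    decide
  have hp1 : p ≠ 1 := by
    intro h
    rw [h, natDegree_one] at hd
    omega
  rw [hm.irreducible_iff_lt_natDegree_lt hp1]
  intro q hq hdq hdiv
  rw [hd, Finset.mem_Ioc] at hdq
  have hrq : ∀ a : ZMod 2, eval a q ≠ 0 := by
    intro a h
    have h1 := eval_dvd (x := a) hdiv
    rw [h, zero_dvd_iff] at h1
    exact hroot a h1
  have h01 : ∀ a : ZMod 2, a ≠ 0 → a = 1 := by decide
  have h2 : q.natDegree = 1 ∨ q.natDegree = 2 := by omega
  rcases h2 with h2 | h2
  · obtain ⟨b, hb⟩ : ∃ b, q = X + C b := ⟨_, hq.eq_X_add_C h2⟩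
    apply hrq (-b)
    rw [hb, eval_add, eval_X, eval_C, neg_add_cancel]
  · have h3 := hq.as_sum
    rw [h2] at h3
    simp only [Finset.sum_range_succ, Finset.sum_range_zero, zero_add, pow_zero, mul_one,
      pow_one] at h3
    have ha : q.coeff 0 = 1 := by
      apply h01
      have := hrq 0
      rw [h3] at this
      simpa using this
    have hb : q.coeff 1 = 1 := by
      have h4 := hrq 1
      rw [h3, ha] at h4
      simp only [eval_add, eval_pow, eval_X, eval_mul, eval_C, one_pow, mul_one] at h4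
      generalize q.coeff 1 = b at h4 ⊢
      revert b
      decide
    rw [ha, hb, C_1, one_mul] at h3
    have h5 : (2 : (ZMod 2)[X]) = 0 := CharTwo.two_eq_zero
    have h6 : p = q * (X ^ 3 + X ^ 2 + X + 1) + X := by
      rw [hp, h3]
      linear_combination (-(X ^ 4 + X ^ 3 + X ^ 2 + X)) * h5
    have h7 : q ∣ X := by
      rw [h6] at hdiv
      exact (dvd_add_right (dvd_mul_right q _)).1 hdiv
    have h8 := natDegree_le_of_dvd h7 X_ne_zero
    rw [h2, natDegree_X] at h8
    omega

end Pool.Agent.N371.PY
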