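import Pool.Agent.N922.PY.Stm
import Pool.Agent.N262.PQ.Gf
import Pool.Agent.N371.PY.Irr

/-!
# Project PY, part GF4 (helper371): the conditions at the small primes, with `f₁ = f0` modulo four

The family is obtained from part GF of project PQ (`N262/PQ/Gf.lean`, helper262).
-/

set_option autoImplicit false

open Polynomial

namespace Pool.Agent.N371.PY

open Pool.Agent.N783.PQ Pool.Agent.N922.PY

theorem f0_deg : f0.natDegree = 5 := by
  rw [f0]; compute_degree!

theorem f0_mon : f0.Monic := by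
  rw [f0]; monicity!

theorem f0_tr : f0.coeff 4 = 0 := by
  rw [f0]
  simp [coeff_X, coeff_one]

theorem f0_rd : rd 2 f0 = X ^ 5 + X ^ 3 + X ^ 2 + X + 1 := by
  rw [rd, f0]
  simp

theorem gf4 : S_GF4 := by
  intro M
  obtain ⟨W, f₁, hG, hW⟩ := Pool.Agent.N262.PQ.gf 2 M (by norm_num)
  -- the odd part of `W`
  set m : ℕ := W / 2 ^ W.factorization 2 with hm
  have hWpos := hG.pos
  have hm0 : 0 < m := Nat.ordCompl_pos 2 hWpos.ne'
  have hm2 : Nat.Coprime 2 m := Nat.coprime_ordCompl Nat.prime_two hWpos.ne'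
  have hmW : m ∣ W := Nat.ordCompl_dvd W 2
  have hpm : ∀ p : ℕ, p.Prime → p ∣ W → p = 2 ∨ p ∣ m := by
    intro p hp h
    by_cases h2 : p = 2
    · exact Or.inl h2
    · right
      have h3 : W = 2 ^ W.factorization 2 * m := (Nat.ordProj_mul_ordCompl_eq_self W 2).symm
      rw [h3] at h
      rcases hp.dvd_mul.1 h with h4 | h4
      · exact absurd ((Nat.prime_dvd_prime_iff_eq hp Nat.prime_two).1 (hp.dvd_of_dvd_pow h4)) h2
      · exact h4
  have h4m : IsCoprime (4 : ℤ) (m : ℤ) := by
    have : Nat.Coprime 4 m := by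
      have := Nat.Coprime.pow_left 2 hm2
      norm_num at this
      exact this
    exact_mod_cast Nat.isCoprime_iff_coprime.2 this
  obtain ⟨u, v, huv⟩ := h4m
  set c : ℤ := u * 4 with hc
  have hc4 : (4 : ℤ) ∣ c := Dvd.intro_left u rfl
  have hcm : (m : ℤ) ∣ c - 1 := ⟨-v, by rw [← huv]; ring⟩
  set F : ℤ[X] := f0 + C c * (f₁ - f0) with hF
  have hdd : (f₁ - f0).degree < f0.degree := by
    have h1 : f₁.degree = f0.degree := by
      rw [degree_eq_natDegree hG.mon.ne_zero, degree_eq_natDegree f0_mon.ne_zero, hG.deg, f0_deg]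
    rw [← h1]
    exact degree_sub_lt_left h1 hG.mon.ne_zero (by rw [hG.mon.leadingCoeff, f0_mon.leadingCoeff])
  have hdd2 : (C c * (f₁ - f0)).degree < f0.degree := by
    rw [← smul_eq_C_mul]
    exact lt_of_le_of_lt (degree_smul_le _ _) hdd
  have hco : ∀ j, F.coeff j = f0.coeff j + c * (f₁.coeff j - f0.coeff j) := by
    intro j
    rw [hF, coeff_add, coeff_C_mul, coeff_sub]
  have hrd : ∀ (p : ℕ) (f f' : ℤ[X]), (∀ j, (p : ℤ) ∣ f.coeff j - f'.coeff j) → rd p f = rd p f' := by
    intro p f f' h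
    ext j
    rw [coeff_map, coeff_map]
    have h2 := h j
    rw [← ZMod.intCast_zmod_eq_zero_iff_dvd, Int.cast_sub, sub_eq_zero] at h2
    simpa using h2
  have hF2 : rd 2 F = rd 2 f0 := by
    apply hrd
    intro j
    rw [hco]
    have : (2 : ℤ) ∣ c := Dvd.dvd.trans ⟨2, by norm_num⟩ hc4
    simpa using this.mul_right (f₁.coeff j - f0.coeff j)
  have hirr : Irreducible (rd 2 F) := by
    rw [hF2, f0_rd]
    exact irr0
  refine ⟨4 * m, F, ⟨?_, ?_, ?_, by positivity, ?_, hirr, ?_⟩, Dvd.intro _ rfl, ?_, ?_⟩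
  · exact f0_mon.add_of_left hdd2
  · rw [hF, natDegree_add_eq_left_of_degree_lt hdd2, f0_deg]
  · have h1 := hG.tr
    have h2 := f0_tr
    rw [hco]
    norm_num at h1 ⊢
    rw [h1, h2]
    ring
  · exact Dvd.dvd.mul_right (by norm_num) m
  · intro p hp h
    rcases hp.dvd_mul.1 h with h4 | h4
    · have h5 : p = 2 := by
        have h6 : p ∣ 2 ^ 2 := by simpa using h4
        exact (Nat.prime_dvd_prime_iff_eq hp Nat.prime_two).1 (hp.dvd_of_dvd_pow h6)
      subst h5
      exact PerfectField.separable_of_irreducible hirr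
    · have h5 : rd p F = rd p f₁ := by
        apply hrd
        intro j
        rw [hco]
        have h6 : (p : ℤ) ∣ c - 1 := (Int.natCast_dvd_natCast.2 h4).trans hcm
        have h7 : f0.coeff j + c * (f₁.coeff j - f0.coeff j) - f₁.coeff j =
            (c - 1) * (f₁.coeff j - f0.coeff j) := by ring
        rw [h7]
        exact h6.mul_right _
      rw [h5]
      exact hG.sep p hp (h4.trans hmW)
  · intro j
    rw [hco]
    simpa using hc4.mul_right (f₁.coeff j - f0.coeff j)
  · intro p hp hpM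
    rcases hpm p hp (hW p hp hpM) with h | h
    · rw [h]
      exact Dvd.dvd.mul_right (by norm_num) m
    · exact h.mul_left 4

end Pool.Agent.N371.PY
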